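import Pool.Agent.MP_3312ae_al.H79.Sanov

/-! Elements that can be adjoined to finite subgroups when a coset has exponent four. -/

namespace Pool.Agent.MP_3312ae_al.H79

open Subgroup

variable {G : Type*} [Group G]

/-- The conjugate `g⁻¹ H g`. -/
def cj (H : Subgroup G) (g : G) : Subgroup G := H.comap (MulAut.conj g).toMonoidHom

lemma mem_cj {H : Subgroup G} {g x : G} : x ∈ cj H g ↔ g * x * g⁻¹ ∈ H := Iff.rfl

lemma ext1 {H : Subgroup G} [Finite H] {a : G} (h2 : a ^ 2 ∈ H)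
    (h4 : ∀ h ∈ H, (a * h) ^ 4 = 1) : Finite (H ⊔ cj H a : Subgroup G) := by
  have := sanov h2 h4
  have ha : a ∈ closure (insert a (H : Set G)) := subset_closure (Set.mem_insert _ _)
  have hH : H ≤ closure (insert a (H : Set G)) := fun x hx =>
    subset_closure (Set.mem_insert_of_mem _ hx)
  refine Finite.of_injective _ (inclusion_injective (sup_le hH fun x hx => ?_))
  have := mul_mem (mul_mem (inv_mem ha) (hH (mem_cj.1 hx))) ha
  simpa [mul_assoc] using this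

lemma norm1 {H : Subgroup G} {s : G} (h2 : s ^ 2 ∈ H) :
    H ⊔ cj H s ≤ cj (H ⊔ cj H s) s := by
  refine sup_le (fun x hx => mem_cj.2 (mem_sup_right (mem_cj.2 ?_)))
    fun x hx => mem_cj.2 (mem_sup_left hx)
  convert mul_mem (mul_mem h2 hx) (inv_mem h2) using 1
  rw [pow_two]; group

lemma norm2 {H : Subgroup G} {s : G} (h2 : s ^ 2 ∈ H) :
    H ⊔ cj H s ≤ cj (H ⊔ cj H s) s⁻¹ := by
  refine sup_le (fun x hx => mem_cj.2 (mem_sup_right (mem_cj.2 ?_)))
    fun x hx => mem_cj.2 (mem_sup_left ?_)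
  · convert hx using 1
    group
  · convert mul_mem (mul_mem (inv_mem h2) (mem_cj.1 hx)) h2 using 1
    rw [pow_two]; group

lemma adj {L : Subgroup G} [Finite L] {s : G} (h2 : s ^ 2 ∈ L) (h1 : L ≤ cj L s)
    (h1' : L ≤ cj L s⁻¹) : Finite (L ⊔ zpowers s : Subgroup G) := by
  let L' : Subgroup G :=
    { carrier := {x | x ∈ L ∨ x * s ∈ L}
      one_mem' := Or.inl L.one_mem
      mul_mem' := by
        rintro x y (hx | hx) (hy | hy)
        · exact Or.inl (mul_mem hx hy)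
        · exact Or.inr (by simpa [mul_assoc] using mul_mem hx hy)
        · refine Or.inr ?_
          convert mul_mem hx (mem_cj.1 (h1' hy)) using 1
          group
        · refine Or.inl ?_
          convert mul_mem (mul_mem hx (mem_cj.1 (h1' hy))) (inv_mem h2) using 1
          rw [pow_two]; group
      inv_mem' := by
        rintro x (hx | hx)
        · exact Or.inl (inv_mem hx)
        · refine Or.inr ?_
          convert mul_mem (mem_cj.1 (h1 (inv_mem hx))) h2 using 1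
          rw [pow_two]; group }
  have hL : (L : Set G).Finite := Set.toFinite _
  have hfin : (L' : Set G).Finite := by
    refine (hL.union (hL.image (· * s⁻¹))).subset ?_
    rintro x (hx | hx)
    · exact Or.inl hx
    · exact Or.inr ⟨x * s, hx, by simp⟩
  have : Finite L' := hfin.to_subtype
  refine Finite.of_injective _ (inclusion_injective (K := L') (sup_le (fun x hx => Or.inl hx) ?_))
  rw [zpowers_le]
  exact Or.inr (by rwa [← pow_two])

/-- A subgroup `E` and an element `t` normalising it such that the coset `t E` has exponent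
dividing four. -/
structure Four (E : Subgroup G) (t : G) : Prop where
  conj : ∀ e ∈ E, t⁻¹ * e * t ∈ E
  sq : t ^ 2 ∈ E
  four : ∀ e ∈ E, (t * e) ^ 4 = 1

/-- Finite subgroups of `E` containing `t ^ 2`. -/
def Fam (E : Subgroup G) (t : G) (H : Subgroup G) : Prop := Finite H ∧ H ≤ E ∧ t ^ 2 ∈ H

/-- The elements which can be adjoined to every member of the family. -/
def D (E : Subgroup G) (t : G) : Subgroup G where
  carrier := {g | ∀ H, Fam E t H → ∃ H', Fam E t H' ∧ H ≤ H' ∧ g ∈ H'}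
  one_mem' := fun H hH => ⟨H, hH, le_rfl, H.one_mem⟩
  mul_mem' := fun {a b} ha hb H hH => by
    obtain ⟨H1, h1, h1', ha'⟩ := ha H hH
    obtain ⟨H2, h2, h2', hb'⟩ := hb H1 h1
    exact ⟨H2, h2, h1'.trans h2', mul_mem (h2' ha') hb'⟩
  inv_mem' := fun {a} ha H hH => by
    obtain ⟨H1, h1, h1', ha'⟩ := ha H hH
    exact ⟨H1, h1, h1', inv_mem ha'⟩

namespace Four

variable {E : Subgroup G} {t : G} (h : Four E t)
include h

lemma t4 : t ^ 4 = 1 := by simpa using h.four 1 E.one_mem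

lemma fin {g : G} (hg : g ∈ D E t) : IsOfFinOrder g := by
  have h1 : IsOfFinOrder (t ^ 2) :=
    isOfFinOrder_iff_pow_eq_one.2 ⟨2, two_pos, by rw [← pow_mul]; exact h.t4⟩
  obtain ⟨H, ⟨_, -, -⟩, -, hH⟩ := hg (zpowers (t ^ 2))
    ⟨h1.finite_zpowers.to_subtype, zpowers_le.2 h.sq, mem_zpowers _⟩
  exact (H.subtype_injective.isOfFinOrder_iff).2 (isOfFinOrder_of_finite (⟨g, hH⟩ : H))

omit h in
lemma sq_mem : t ^ 2 ∈ D E t := fun H hH => ⟨H, hH, le_rfl, hH.2.2⟩

lemma step {s : G} (hs : s ∈ E) (h2 : s ^ 2 ∈ D E t) (h1 : t⁻¹ * s * t * s ∈ D E t) :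
    s ∈ D E t := by
  intro H0 hH0
  obtain ⟨H', hH', le1, m1⟩ := h2 H0 hH0
  obtain ⟨H, ⟨_, hE, hb⟩, le2, m2⟩ := h1 H' hH'
  replace m1 := le2 m1
  have f1 : Finite (H ⊔ cj H t : Subgroup G) := ext1 hb fun x hx => h.four x (hE hx)
  set H1 := H ⊔ cj H t with hH1
  have e1 : H1 ≤ E := sup_le hE fun x hx => by
    simpa [mul_assoc] using h.conj _ (hE (mem_cj.1 hx))
  have a2 : (t * s) ^ 2 ∈ H1 := by
    convert mem_sup_left (T := cj H t) (mul_mem hb m2) using 1
    simp only [pow_two]; group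
  have f2 : Finite (H1 ⊔ cj H1 (t * s) : Subgroup G) := ext1 a2 fun x hx => by
    rw [mul_assoc]; exact h.four _ (mul_mem hs (e1 hx))
  have e2 : cj H1 (t * s) = cj H1 s := by
    ext x
    constructor
    · intro hx
      rw [mem_cj]
      convert mem_cj.1 (norm2 hb (mem_cj.1 hx)) using 1
      group
    · intro hx
      rw [mem_cj]
      convert mem_cj.1 (norm1 hb (mem_cj.1 hx)) using 1
      group
  rw [e2] at f2
  have s2 : s ^ 2 ∈ H1 := mem_sup_left m1
  have f3 := adj (mem_sup_left s2) (norm1 s2) (norm2 s2)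
  refine ⟨_, ⟨f3, sup_le (sup_le e1 fun x hx => ?_) (zpowers_le.2 hs),
    mem_sup_left (mem_sup_left (mem_sup_left hb))⟩,
    le1.trans (le2.trans (le_sup_left.trans (le_sup_left.trans le_sup_left))),
    mem_sup_right (mem_zpowers s)⟩
  simpa [mul_assoc] using mul_mem (mul_mem (inv_mem hs) (e1 (mem_cj.1 hx))) hs

lemma comm {T : G} (hT : T ∈ E) (hi : t * t * T * (t * t)⁻¹ = T⁻¹) :
    Commute (t⁻¹ * T * t) T := by
  have key : (t⁻¹ * T * t)⁻¹ * T⁻¹ * (t⁻¹ * T * t) * T = 1 := by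
    calc _ = t⁻¹ * T⁻¹ * t * T⁻¹ * (t⁻¹ * T * t) * T := by group
      _ = t⁻¹ * (t * t * T * (t * t)⁻¹) * t * (t * t * T * (t * t)⁻¹) * (t⁻¹ * T * t) * T := by
        rw [hi]
      _ = t * T * t * T * (t * (t ^ 4)⁻¹) * T * t * T := by group
      _ = (t * T) ^ 4 := by rw [h.t4]; simp only [pow_succ]; group
      _ = 1 := h.four T hT
  calc t⁻¹ * T * t * T
      = T * (t⁻¹ * T * t) * ((t⁻¹ * T * t)⁻¹ * T⁻¹ * (t⁻¹ * T * t) * T) := by group
    _ = T * (t⁻¹ * T * t) := by rw [key, mul_one]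

lemma inverted (k : ℕ) :
    ∀ T ∈ E, t * t * T * (t * t)⁻¹ = T⁻¹ → T ^ 2 ^ k = 1 → T ∈ D E t := by
  induction k with
  | zero =>
    intro T _ _ h1
    rw [pow_zero, pow_one] at h1
    rw [h1]
    exact one_mem _
  | succ k ih =>
    intro T hT hi h1
    have hc := h.comm hT hi
    have hT' := h.conj T hT
    have i2 : t * t * T ^ 2 * (t * t)⁻¹ = (T ^ 2)⁻¹ := by rw [← conj_pow, hi, inv_pow]
    have o2 : (T ^ 2) ^ 2 ^ k = 1 := by rw [← pow_mul, ← pow_succ', h1]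
    have e2 : (t⁻¹ * T * t) ^ 2 = t⁻¹ * T ^ 2 * t := by simp only [pow_two]; group
    have d1 : T ^ 2 ∈ D E t := ih _ (pow_mem hT 2) i2 o2
    have d2 : (t⁻¹ * T * t) ^ 2 ∈ D E t := by
      refine ih _ (pow_mem hT' 2) ?_ ?_
      · rw [e2]
        calc _ = t⁻¹ * (t * t * T ^ 2 * (t * t)⁻¹) * t := by group
          _ = _ := by rw [i2]; group
      · have := conj_pow (a := t⁻¹) (b := T ^ 2) (i := 2 ^ k)
        rw [inv_inv] at this
        rw [e2, this, o2]
        simp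
    refine h.step hT d1 (h.step (mul_mem hT' hT) ?_ ?_)
    · rw [hc.mul_pow]
      exact mul_mem d2 d1
    · have i3 : t⁻¹ * t⁻¹ * T * t * t = T⁻¹ := by
        calc _ = ((t * t)⁻¹ * T⁻¹ * (t * t))⁻¹ := by simp [mul_assoc]
          _ = T⁻¹ := by
            congr 1
            rw [← hi]
            simp [mul_assoc]
      convert d2 using 1
      calc _ = t⁻¹ * t⁻¹ * T * t * t * (t⁻¹ * T * t) ^ 2 * T := by simp only [pow_two]; group
        _ = T⁻¹ * ((t⁻¹ * T * t) ^ 2 * T) := by rw [i3, mul_assoc]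
        _ = _ := by rw [(hc.pow_left 2).eq]; group

lemma sq_odd {e : G} (he : e ∈ E) {k : ℕ} (hk : (t ^ 2 * (t * e) ^ 2) ^ 2 ^ k = 1) :
    (t * e) ^ 2 ∈ D E t := by
  have h1 : (t * e) ^ 2 ∈ E := by
    convert mul_mem (mul_mem h.sq (h.conj e he)) he using 1
    simp only [pow_two]; group
  have h2 : ((t * e) ^ 2)⁻¹ = (t * e) ^ 2 := by
    rw [inv_eq_iff_mul_eq_one, ← pow_add]
    exact h.four e he
  have h3 := h.inverted k _ (mul_mem h.sq h1) (by
    calc _ = t ^ 4 * (t * e) ^ 2 * (t ^ 2)⁻¹ := by generalize (t * e) ^ 2 = j; group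
      _ = _ := by rw [h.t4, mul_inv_rev, h2, one_mul]) hk
  simpa using mul_mem (inv_mem sq_mem) h3

end Four

/-- Commutators are products of squares of elements of the coset `u U`. -/
lemma comm_mem {U K : Subgroup G} {u : G} (hu : ∀ y ∈ U, u⁻¹ * y * u ∈ U)
    (hK : ∀ y ∈ U, (u * y) ^ 2 ∈ K) {y z : G} (hy : y ∈ U) (hz : z ∈ U) :
    z⁻¹ * y⁻¹ * z * y ∈ K := by
  have h1 := hK _ (mul_mem hy hz)
  have h2 := hK _ hy
  have h3 := hK _ (mul_mem (hu _ (inv_mem hy)) hy)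
  have h4 := hK _ (mul_mem (hu _ (inv_mem hy)) (mul_mem hz hy))
  convert mul_mem (mul_mem (mul_mem (inv_mem h1) h2) (inv_mem h3)) h4 using 1
  simp only [pow_two]; group

lemma pow_mem_of_comm {U K : Subgroup G}
    (hK : ∀ y ∈ U, ∀ z ∈ U, z⁻¹ * y⁻¹ * z * y ∈ K) {x y : G} (hx : x ∈ U) (hy : y ∈ U) (n : ℕ) :
    (y ^ n * x ^ n)⁻¹ * (y * x) ^ n ∈ K := by
  induction n with
  | zero => simp
  | succ n ih =>
    have h1 := hK ((x ^ n)⁻¹ * y ^ n * x ^ n)
      (mul_mem (mul_mem (inv_mem (pow_mem hx n)) (pow_mem hy n)) (pow_mem hx n))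
      ((x ^ n)⁻¹ * x * x ^ n) (mul_mem (mul_mem (inv_mem (pow_mem hx n)) hx) (pow_mem hx n))
    convert mul_mem h1 ih using 1
    rw [pow_succ' (y * x), pow_succ' y, pow_succ' x]
    generalize (y * x) ^ n = c
    generalize y ^ n = d
    generalize x ^ n = f
    group

/-- The algebraic core. -/
theorem core {E U : Subgroup G} {t e x₀ x : G} {k n : ℕ} (h : Four E t) (hU : U ≤ E)
    (he : e ∈ E) (hu : ∀ y ∈ U, (t * e)⁻¹ * y * (t * e) ∈ U)
    (hq : ∀ y ∈ U, (t ^ 2 * (t * e * y) ^ 2) ^ 2 ^ k = 1) (hx₀ : x₀ ∈ U) (hx : x ∈ U)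
    (h0 : x₀ ^ n = 1) (h1 : (x₀ * x) ^ n = 1) : IsOfFinOrder (x ^ n) := by
  have h2 := pow_mem_of_comm (K := D E t) (fun y hy z hz => comm_mem hu (fun w hw => by
    rw [mul_assoc]
    exact h.sq_odd (mul_mem he (hU hw)) (by rw [← mul_assoc]; exact hq w hw)) hy hz) hx hx₀ n
  rw [h0, h1, one_mul, mul_one] at h2
  exact h.fin (by simpa using inv_mem h2)

/-- The uniform version. -/
theorem core_unif {E U V : Subgroup G} {t e x₀ : G} {k n : ℕ} (hn : 0 < n) (h : Four E t)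
    (hU : U ≤ E) (hV : V ≤ U) (he : e ∈ E) (hu : ∀ y ∈ U, (t * e)⁻¹ * y * (t * e) ∈ U)
    (hq : ∀ y ∈ U, (t ^ 2 * (t * e * y) ^ 2) ^ 2 ^ k = 1) (hx₀ : x₀ ∈ U)
    (h1 : ∀ x ∈ V, (x₀ * x) ^ n = 1) : ∃ m, 0 < m ∧ ∀ x ∈ V, x ^ m = 1 := by
  have h0 : x₀ ^ n = 1 := by simpa using h1 1 V.one_mem
  have := core (G := V → G) (E := Subgroup.pi Set.univ fun _ => E)
    (U := Subgroup.pi Set.univ fun _ => U) (t := fun _ => t) (e := fun _ => e)
    (x₀ := fun _ => x₀) (x := fun v => v) (k := k) (n := n)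
    ⟨fun f hf i hi => h.conj _ (hf i hi), fun _ _ => h.sq,
      fun f hf => funext fun i => h.four _ (hf i trivial)⟩
    (fun f hf i hi => hU (hf i hi)) (fun _ _ => he) (fun f hf i hi => hu _ (hf i hi))
    (fun f hf => funext fun i => hq _ (hf i trivial)) (fun _ _ => hx₀) (fun i _ => hV i.2)
    (funext fun _ => h0) (funext fun i => h1 _ i.2)
  obtain ⟨m, hm, hm'⟩ := isOfFinOrder_iff_pow_eq_one.1 this
  refine ⟨n * m, Nat.mul_pos hn hm, fun x hx => ?_⟩
  rw [pow_mul]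
  exact congrFun hm' ⟨x, hx⟩

end Pool.Agent.MP_3312ae_al.H79
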