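import Mathlib

/-! The finiteness lemma of Sanov for a coset of exponent four. -/

namespace Pool.Agent.MP_3312ae_al.H79

variable {G : Type*} [Group G]

/-- The word `h_1 a h_2 a ... h_n a`. -/
def pr (a : G) : List G → G
  | [] => 1
  | h :: L => h * a * pr a L

/-- The alternating product `h_1 (h_2 (h_3 ...)⁻¹)⁻¹`. -/
def cs : List G → G
  | [] => 1
  | h :: L => h * (cs L)⁻¹

/-- Words `h_0 a h_1 ... a h_n` with all `h_i` in `H`. -/
def Y (H : Subgroup G) (a : G) : ℕ → Set G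
  | 0 => H
  | n + 1 => {g | ∃ h ∈ H, ∃ y ∈ Y H a n, g = h * a * y}

variable {H : Subgroup G} {a : G}

lemma pr_append (L L' : List G) : pr a (L ++ L') = pr a L * pr a L' := by
  induction L with
  | nil => simp [pr]
  | cons h L ih => simp [pr, ih, mul_assoc]

lemma cs_mem {L : List G} (hL : ∀ l ∈ L, l ∈ H) : cs L ∈ H := by
  induction L with
  | nil => exact H.one_mem
  | cons h L ih =>
    exact H.mul_mem (hL h List.mem_cons_self)
      (H.inv_mem (ih fun l hl => hL l (List.mem_cons_of_mem _ hl)))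

lemma cs_cancel (P M : List G) (h : cs P = cs (P ++ M)) : cs M = 1 := by
  induction P with
  | nil => simpa [cs] using h.symm
  | cons p P ih => exact ih (by simpa [cs] using h)

lemma Y_left {n : ℕ} {h g : G} (hh : h ∈ H) (hg : g ∈ Y H a n) : h * g ∈ Y H a n := by
  cases n with
  | zero => exact H.mul_mem hh hg
  | succ n =>
    obtain ⟨k, hk, y, hy, rfl⟩ := hg
    exact ⟨h * k, H.mul_mem hh hk, y, hy, by group⟩

lemma Y_mul {m n : ℕ} {g g' : G} (hg : g ∈ Y H a m) (hg' : g' ∈ Y H a n) :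
    g * g' ∈ Y H a (n + m) := by
  induction m generalizing g with
  | zero => exact Y_left hg hg'
  | succ m ih =>
    obtain ⟨k, hk, y, hy, rfl⟩ := hg
    exact ⟨k, hk, y * g', ih hy, by group⟩

lemma Y_finite [Finite H] (n : ℕ) : (Y H a n).Finite := by
  have hH : (H : Set G).Finite := Set.toFinite _
  induction n with
  | zero => exact hH
  | succ n ih =>
    refine ((hH.prod ih).image fun p : G × G => p.1 * a * p.2).subset ?_
    rintro _ ⟨h, hh, y, hy, rfl⟩
    exact ⟨(h, y), ⟨hh, hy⟩, rfl⟩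

lemma pr_mem {L : List G} (hL : ∀ l ∈ L, l ∈ H) : pr a L ∈ Y H a L.length := by
  induction L with
  | nil => exact H.one_mem
  | cons h L ih =>
    exact ⟨h, hL h List.mem_cons_self, _, ih fun l hl => hL l (List.mem_cons_of_mem _ hl), rfl⟩

lemma Y_list {n : ℕ} {g : G} (hg : g ∈ Y H a n) :
    ∃ L : List G, (∀ l ∈ L, l ∈ H) ∧ L.length = n ∧ ∃ h ∈ H, g = pr a L * h := by
  induction n generalizing g with
  | zero => exact ⟨[], by simp, rfl, g, hg, by simp [pr]⟩
  | succ n ih =>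
    obtain ⟨k, hk, y, hy, rfl⟩ := hg
    obtain ⟨L, hL, rfl, h, hh, rfl⟩ := ih hy
    refine ⟨k :: L, ?_, rfl, h, hh, by simp [pr, mul_assoc]⟩
    intro l hl
    rcases List.mem_cons.1 hl with rfl | hl
    exacts [hk, hL l hl]

lemma pr_end (h : G) (P : List G) (hL : ∀ l ∈ h :: P, l ∈ H) :
    ∃ y ∈ Y H a P.length, pr a (h :: P) = y * a := by
  induction P generalizing h with
  | nil => exact ⟨h, hL h List.mem_cons_self, by simp [pr]⟩
  | cons p P ih =>
    obtain ⟨y, hy, e⟩ := ih p fun l hl => hL l (List.mem_cons_of_mem _ hl)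
    exact ⟨h * a * y, ⟨h, hL h List.mem_cons_self, y, hy, rfl⟩, by rw [pr, e]; group⟩

lemma move {c : G} (h4 : (a * c) ^ 4 = 1) :
    a * c * a = c⁻¹ * a * ((a ^ 2)⁻¹ * c⁻¹ * (a ^ 2)⁻¹) * a * c⁻¹ := by
  have : a * c * a = (a * c) ^ 4 * (c * a * c * a * c)⁻¹ := by
    simp only [pow_succ]; group
  rw [this, h4]
  simp only [pow_succ]; group

lemma cascade (h2 : a ^ 2 ∈ H) (h4 : ∀ h ∈ H, (a * h) ^ 4 = 1) (h : G) (L : List G)
    (hL : ∀ l ∈ h :: L, l ∈ H) : ∃ y ∈ Y H a L.length, pr a (h :: L) = cs (h :: L) * a * y := by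
  induction L generalizing h with
  | nil => exact ⟨1, H.one_mem, by simp [pr, cs]⟩
  | cons p L ih =>
    have hp : ∀ l ∈ p :: L, l ∈ H := fun l hl => hL l (List.mem_cons_of_mem _ hl)
    obtain ⟨y, hy, e⟩ := ih p hp
    have hc := cs_mem hp
    refine ⟨_, ⟨_, H.mul_mem (H.mul_mem (H.inv_mem h2) (H.inv_mem hc)) (H.inv_mem h2), _,
      Y_left (H.inv_mem hc) hy, rfl⟩, ?_⟩
    rw [pr, e, show cs (h :: p :: L) = h * (cs (p :: L))⁻¹ from rfl]
    generalize cs (p :: L) = c at *
    calc h * a * (c * a * y) = h * (a * c * a) * y := by group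
      _ = _ := by rw [move (h4 _ hc)]; group

lemma shorten [Finite H] (h2 : a ^ 2 ∈ H) (h4 : ∀ h ∈ H, (a * h) ^ 4 = 1) {n : ℕ}
    (hn : Nat.card H < n) {g : G} (hg : g ∈ Y H a n) : ∃ m < n, g ∈ Y H a m := by
  obtain ⟨L, hL, rfl, h, hh, rfl⟩ := Y_list hg
  obtain _ | ⟨h0, T⟩ := L
  · simp at hn
  have hT : ∀ l ∈ T, l ∈ H := fun l hl => hL l (List.mem_cons_of_mem _ hl)
  have := Fintype.ofFinite H
  obtain ⟨k, l, hkl, e⟩ : ∃ k l : ℕ, (k < l ∧ l ≤ T.length) ∧ cs (T.take k) = cs (T.take l) := by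
    obtain ⟨k, l, hkl, e⟩ := Fintype.exists_ne_map_eq_of_card_lt
      (fun k : Fin (T.length + 1) =>
        (⟨cs (T.take k), cs_mem fun l hl => hT l (List.mem_of_mem_take hl)⟩ : H))
      (by simpa [Nat.card_eq_fintype_card] using hn)
    have e' := congrArg Subtype.val e
    rcases lt_or_gt_of_ne hkl with h1 | h1
    · exact ⟨k, l, ⟨h1, Nat.lt_succ_iff.1 l.2⟩, e'⟩
    · exact ⟨l, k, ⟨h1, Nat.lt_succ_iff.1 k.2⟩, e'.symm⟩
  have e1 : T.take l = T.take k ++ (T.take l).drop k := by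
    conv_lhs => rw [← List.take_append_drop k (T.take l), List.take_take, min_eq_left hkl.1.le]
  have e2 : T = T.take k ++ (T.take l).drop k ++ T.drop l := by
    rw [← e1, List.take_append_drop]
  have e3 := cs_cancel _ _ (e.trans (congrArg cs e1))
  have hlen : ((T.take l).drop k).length ≠ 0 := by
    simp only [List.length_drop, List.length_take]; omega
  generalize T.take k = P at *
  generalize (T.take l).drop k = M at *
  generalize T.drop l = S at *
  subst e2
  obtain _ | ⟨p, M⟩ := M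
  · simp at hlen
  obtain ⟨y, hy, ey⟩ := cascade h2 h4 p M fun l hl =>
    hT l (List.mem_append_left _ (List.mem_append_right _ hl))
  obtain ⟨z, hz, ez⟩ := pr_end (a := a) h0 P fun l hl => hL l (by
    rcases List.mem_cons.1 hl with h1 | h1 <;> simp [h1])
  have hS := pr_mem (a := a) (L := S) fun l hl => hT l (by simp [hl])
  have h0' : h ∈ Y H a 0 := hh
  have := Y_mul hz (Y_mul (Y_left h2 hy) (Y_mul hS h0'))
  refine ⟨0 + S.length + M.length + P.length, ?_, ?_⟩
  · simp only [List.length_cons, List.length_append]; omega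
  · convert this using 1
    rw [← List.cons_append, ← List.cons_append, pr_append, pr_append, ez, ey, e3, pow_two]
    group

/-- The lemma of Sanov. -/
theorem sanov [Finite H] (h2 : a ^ 2 ∈ H) (h4 : ∀ h ∈ H, (a * h) ^ 4 = 1) :
    Finite (Subgroup.closure (insert a (H : Set G))) := by
  have key : ∀ n, ∀ g ∈ Y H a n, ∃ m ≤ Nat.card H, g ∈ Y H a m := by
    intro n
    induction n using Nat.strong_induction_on with
    | _ n ih =>
      intro g hg
      by_cases hn : n ≤ Nat.card H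
      · exact ⟨n, hn, hg⟩
      · obtain ⟨m, hm, hg'⟩ := shorten h2 h4 (not_le.1 hn) hg
        exact ih m hm g hg'
  have hfin : (⋃ m ∈ Set.Iic (Nat.card H), Y H a m).Finite :=
    (Set.finite_Iic _).biUnion fun m _ => Y_finite m
  refine (hfin.subset fun g hg => ?_).to_subtype
  have : ∃ n, g ∈ Y H a n := by
    induction hg using Subgroup.closure_induction'' with
    | mem x hx =>
      rcases hx with rfl | hx
      · exact ⟨1, 1, H.one_mem, 1, H.one_mem, by simp⟩
      · exact ⟨0, hx⟩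
    | inv_mem x hx =>
      rcases hx with rfl | hx
      · exact ⟨1, _, H.inv_mem h2, 1, H.one_mem, by rw [pow_two]; group⟩
      · exact ⟨0, H.inv_mem hx⟩
    | one => exact ⟨0, H.one_mem⟩
    | mul x y _ _ hx hy =>
      obtain ⟨m, hm⟩ := hx
      obtain ⟨n, hn⟩ := hy
      exact ⟨_, Y_mul hm hn⟩
  obtain ⟨n, hn⟩ := this
  obtain ⟨m, hm, hg'⟩ := key n g hn
  exact Set.mem_biUnion hm hg'

end Pool.Agent.MP_3312ae_al.H79
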