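import Pool.Agent.MP_3312ae_al.H79.Core
import Pool.Agent.MP_3312ae_al.H59.Top

/-! Compact groups of two-elements with an open set of exponent four. -/

namespace Pool.Agent.MP_3312ae_al.H79

open Subgroup Topology Filter

variable {G : Type*} [Group G]

/-- The subgroup generated by a normal subgroup `N` and `t ^ 2`, when `t ^ 4 = 1`. -/
def ev (N : Subgroup G) [hN : N.Normal] (t : G) (ht : t ^ 4 = 1) : Subgroup G where
  carrier := {g | g ∈ N ∨ t ^ 2 * g ∈ N}
  one_mem' := Or.inl N.one_mem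
  mul_mem' := by
    rintro x y (hx | hx) (hy | hy)
    · exact Or.inl (mul_mem hx hy)
    · refine Or.inr ?_
      convert mul_mem (hN.conj_mem _ hx (t ^ 2)) hy using 1
      group
    · exact Or.inr (by simpa [mul_assoc] using mul_mem hx hy)
    · refine Or.inl ?_
      convert mul_mem (hN.conj_mem _ hx (t ^ 2)⁻¹) hy using 1
      calc x * y = (t ^ 2)⁻¹ * (t ^ 2 * x) * t ^ 4 * y := by rw [ht]; group
        _ = _ := by group
  inv_mem' := by
    rintro x (hx | hx)
    · exact Or.inl (inv_mem hx)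
    · refine Or.inr ?_
      convert hN.conj_mem _ (inv_mem hx) (t ^ 2) using 1
      calc t ^ 2 * x⁻¹ = t ^ 2 * x⁻¹ * (t ^ 4)⁻¹ := by rw [ht]; group
        _ = _ := by group

lemma four_ev (N : Subgroup G) [hN : N.Normal] (t : G) (ht : t ^ 4 = 1)
    (h : ∀ x ∈ N, (t * x) ^ 4 = 1) : Four (ev N t ht) t where
  conj := by
    rintro e (he | he)
    · exact Or.inl (hN.conj_mem' _ he t)
    · refine Or.inr ?_
      convert hN.conj_mem' _ he t using 1
      group
  sq := Or.inr (by rw [← pow_add, ht]; exact N.one_mem)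
  four := by
    rintro e (he | he)
    · exact h e he
    · have h1 := h _ (hN.conj_mem' _ (inv_mem he) t)
      have h2 : t * (t⁻¹ * (t ^ 2 * e)⁻¹ * t) = (t * e)⁻¹ := by group
      rwa [h2, inv_pow, inv_eq_one] at h1

variable [TopologicalSpace G] [IsTopologicalGroup G] [CompactSpace G] [T2Space G]
  [TotallyDisconnectedSpace G]

lemma exists_box {W : Set G} {e : G} (hW : W ∈ 𝓝 e) :
    ∃ U : OpenNormalSubgroup G, ∀ y ∈ U.toSubgroup, e * y ∈ W := by
  have h1 : Tendsto (fun w => e * w) (𝓝 1) (𝓝 e) := by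
    simpa using (continuous_const_mul e).tendsto 1
  obtain ⟨U, hU⟩ := ProfiniteGrp.exist_openNormalSubgroup_sub_open_nhds_of_one isOpen_interior
    (mem_interior_iff_mem_nhds.2 (h1 hW))
  exact ⟨U, fun y hy => interior_subset (s := (fun w => e * w) ⁻¹' W) (hU hy)⟩

lemma baire_box (N : OpenNormalSubgroup G) (F : ℕ → Set G) (hF : ∀ k, IsClosed (F k))
    (hc : ∀ g ∈ N.toSubgroup, ∃ k, g ∈ F k) :
    ∃ k, ∃ e ∈ N.toSubgroup, ∃ U : OpenNormalSubgroup G, U.toSubgroup ≤ N.toSubgroup ∧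
      ∀ y ∈ U.toSubgroup, e * y ∈ F k := by
  have hd := dense_iUnion_interior_of_closed (f := fun k => F k ∪ (N.toSubgroup : Set G)ᶜ)
    (fun k => (hF k).union N.isOpen.isClosed_compl) (Set.eq_univ_of_forall fun g => by
      by_cases hg : g ∈ N.toSubgroup
      · obtain ⟨k, hk⟩ := hc g hg
        exact Set.mem_iUnion.2 ⟨k, Or.inl hk⟩
      · exact Set.mem_iUnion.2 ⟨0, Or.inr hg⟩)
  obtain ⟨e, heN, he⟩ := hd.inter_open_nonempty _ N.isOpen ⟨1, N.toSubgroup.one_mem⟩
  obtain ⟨k, hk⟩ := Set.mem_iUnion.1 he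
  obtain ⟨U, hU⟩ := exists_box
    (inter_mem (mem_interior_iff_mem_nhds.1 hk) (N.isOpen.mem_nhds heN))
  refine ⟨k, e, heN, U, fun y hy => ?_, fun y hy => ?_⟩
  · exact (mul_mem_cancel_left heN).1 (hU y hy).2
  · exact (hU y hy).1.resolve_right fun h => h (hU y hy).2

theorem two_case (h2 : ∀ g : G, ∃ k, g ^ 2 ^ k = 1) {W : Set G} {t : G} (hW : W ∈ 𝓝 t)
    (h4 : ∀ g ∈ W, g ^ 4 = 1) : ∃ n, 0 < n ∧ ∀ g : G, g ^ n = 1 := by
  obtain ⟨N, hN⟩ := exists_box hW
  have ht : t ^ 4 = 1 := h4 t (mem_of_mem_nhds hW)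
  have hF := four_ev N.toSubgroup t ht fun x hx => h4 _ (hN x hx)
  obtain ⟨k, e, he, U, hU, hk⟩ := baire_box N (fun k => {g | (t ^ 2 * (t * g) ^ 2) ^ 2 ^ k = 1})
    (fun k => isClosed_eq (by fun_prop) continuous_const) fun g _ => h2 _
  obtain ⟨l, x₀, hx₀, V, hV, hl⟩ := baire_box U (fun k => {g | g ^ 2 ^ k = 1})
    (fun k => isClosed_eq (by fun_prop) continuous_const) fun g _ => h2 _
  obtain ⟨m, hm, hm'⟩ := core_unif (E := ev N.toSubgroup t ht) (U := U.toSubgroup)
    (V := V.toSubgroup) (e := e) (x₀ := x₀) (k := k) (n := 2 ^ l) (by positivity) hF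
    (fun x hx => Or.inl (hU hx)) hV (Or.inl he)
    (fun y hy => (inferInstance : U.toSubgroup.Normal).conj_mem' y hy _)
    (fun y hy => by rw [mul_assoc]; exact hk y hy) hx₀ hl
  exact H59.exp_of_open V hm hm'

end Pool.Agent.MP_3312ae_al.H79
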